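import Pool.Agent.QSB.StmtsR

set_option autoImplicit false

namespace Pool.Agent.QSB.H18

open Matrix Finset Pool.Agent.QSX Pool.Agent.QSB

/-- `mexp (t • a)` as a polynomial in `t` -/
theorem mexp_smul {m : ℕ} (a : Matrix (Fin m) (Fin m) ℝ) (t : ℝ) :
    mexp (t • a) = ∑ k ∈ range (m + 1), (t ^ k * ((k.factorial : ℝ)⁻¹)) • a ^ k := by
  rw [mexp]
  refine Finset.sum_congr rfl fun k _ => ?_
  rw [smul_pow, smul_smul, mul_comm]

/-- the derivative of an entry of `mexp (t • a)` -/
theorem mexp_deriv {m : ℕ} {a : Matrix (Fin m) (Fin m) ℝ} (ha : SU a) (i j : Fin m) (t : ℝ) :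
    HasDerivAt (fun t : ℝ => mexp (t • a) i j) ((a * mexp (t • a)) i j) t := by
  have h1 : (fun t : ℝ => mexp (t • a) i j) =
      fun t => ∑ k ∈ range (m + 1), (t ^ k * ((k.factorial : ℝ)⁻¹)) * (a ^ k) i j := by
    funext t
    rw [mexp_smul, Matrix.sum_apply]
    refine Finset.sum_congr rfl fun k _ => ?_
    rw [Matrix.smul_apply, smul_eq_mul]
  have h2 : (a * mexp (t • a)) i j =
      ∑ k ∈ range (m + 1), ((k : ℝ) * t ^ (k - 1) * ((k.factorial : ℝ)⁻¹)) * (a ^ k) i j := by
    rw [mexp_smul, Finset.mul_sum, Matrix.sum_apply, Finset.sum_range_succ, Finset.sum_range_succ']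
    have h3 : (a * (t ^ m * ((m.factorial : ℝ)⁻¹)) • a ^ m) i j = 0 := by
      rw [Matrix.mul_smul, ← pow_succ', ha.pow_eq_zero (Nat.le_succ m), smul_zero, Matrix.zero_apply]
    rw [h3, add_zero]
    simp only [Nat.cast_zero, zero_mul, add_zero]
    refine Finset.sum_congr rfl fun k _ => ?_
    rw [Matrix.mul_smul, ← pow_succ', Matrix.smul_apply, smul_eq_mul, Nat.add_sub_cancel,
      Nat.factorial_succ]
    have hk : ((k : ℝ) + 1) ≠ 0 := by positivity
    push_cast
    field_simp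
  rw [h1, h2]
  apply HasDerivAt.fun_sum
  intro k _
  exact ((hasDerivAt_pow k t).mul_const _).mul_const _


/-- entrywise derivative -/
def DD {m : ℕ} (f : ℝ → Matrix (Fin m) (Fin m) ℝ) (f' : Matrix (Fin m) (Fin m) ℝ) (t : ℝ) : Prop :=
  ∀ i j, HasDerivAt (fun t => f t i j) (f' i j) t

theorem DD.mul {m : ℕ} {f g : ℝ → Matrix (Fin m) (Fin m) ℝ} {f' g' : Matrix (Fin m) (Fin m) ℝ}
    {t : ℝ} (hf : DD f f' t) (hg : DD g g' t) :
    DD (fun t => f t * g t) (f' * g t + f t * g') t := by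
  intro i j
  have h1 : (fun t => (f t * g t) i j) = fun t => ∑ k, f t i k * g t k j := by
    funext t; rw [Matrix.mul_apply]
  have h2 : (f' * g t + f t * g') i j = ∑ k, (f' i k * g t k j + f t i k * g' k j) := by
    rw [Matrix.add_apply, Matrix.mul_apply, Matrix.mul_apply, Finset.sum_add_distrib]
  rw [h1, h2]
  apply HasDerivAt.fun_sum
  intro k _
  exact (hf i k).mul (hg k j)

theorem DD.const {m : ℕ} (a : Matrix (Fin m) (Fin m) ℝ) (t : ℝ) : DD (fun _ => a) 0 t :=
  fun _ _ => hasDerivAt_const _ _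

theorem DD.eq {m : ℕ} {f : ℝ → Matrix (Fin m) (Fin m) ℝ} (h : ∀ t, DD f 0 t) (t : ℝ) :
    f t = f 0 := by
  ext i j
  exact is_const_of_deriv_eq_zero (fun t => (h t i j).differentiableAt) (fun t => (h t i j).deriv)
    t 0

theorem DD.congr {m : ℕ} {f : ℝ → Matrix (Fin m) (Fin m) ℝ} {f' g' : Matrix (Fin m) (Fin m) ℝ}
    {t : ℝ} (h : DD f f' t) (e : f' = g') : DD f g' t := e ▸ h

theorem DD.exp {m : ℕ} {a : Matrix (Fin m) (Fin m) ℝ} (ha : SU a) (t : ℝ) :
    DD (fun t => mexp (t • a)) (a * mexp (t • a)) t := fun i j => mexp_deriv ha i j t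

theorem commute_mexp {m : ℕ} {a c : Matrix (Fin m) (Fin m) ℝ} (h : Commute c a) :
    Commute c (mexp a) := by
  rw [mexp]
  exact Commute.sum_right _ _ _ fun k _ => (h.pow_right k).smul_right _

/-- conjugation -/
theorem conj_aux {m : ℕ} {a b c : Matrix (Fin m) (Fin m) ℝ} (ha : SU a)
    (hc : a * b - b * a = c) (hac : Commute a c) (t : ℝ) :
    mexp (t • a) * b = (b + t • c) * mexp (t • a) := by
  have key : ∀ t : ℝ, DD (fun t : ℝ => mexp ((t • (-a))) * ((b + t • c) * mexp (t • a))) 0 t := by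
    intro t
    have h1 : DD (fun t : ℝ => b + t • c) c t := by
      intro i j
      have := ((hasDerivAt_id t).mul_const (c i j)).const_add (b i j)
      simpa [Matrix.add_apply, Matrix.smul_apply] using this
    have h2 := (DD.exp ha.neg t).mul (h1.mul (DD.exp ha t))
    refine h2.congr ?_
    have e1 : (-a) * mexp (t • (-a)) = mexp (t • (-a)) * (-a) :=
      (commute_mexp ((Commute.refl (-a)).smul_right t))
    rw [e1]
    have e2 : (-a) * ((b + t • c) * mexp (t • a)) + (c * mexp (t • a) + (b + t • c) * (a * mexp (t • a)))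
        = (-(a * b - b * a) + c - t • (a * c - c * a)) * mexp (t • a) := by
      simp only [Matrix.add_mul, Matrix.mul_add, Matrix.neg_mul, Matrix.sub_mul, Matrix.mul_assoc,
        Matrix.smul_mul, Matrix.mul_smul, smul_sub]
      module
    rw [Matrix.mul_assoc, ← Matrix.mul_add, e2, hc, hac.eq]
    simp
  have h3 := DD.eq key t
  simp only [zero_smul, mexp_zero, add_zero, one_mul, mul_one] at h3
  have h4 : mexp (t • a) * mexp (t • (-a)) = 1 := by
    rw [smul_neg]
    exact mexp_mul_neg (ha.smul t)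
  calc mexp (t • a) * b = mexp (t • a) * (mexp (t • (-a)) * ((b + t • c) * mexp (t • a))) := by
        rw [h3]
    _ = (b + t • c) * mexp (t • a) := by rw [← Matrix.mul_assoc, h4, Matrix.one_mul]

/-- **BC2**: the formula for two matrices whose commutator is central -/
theorem bc2 {m : ℕ} {a b c : Matrix (Fin m) (Fin m) ℝ} (ha : SU a) (hb : SU b)
    (hc : a * b - b * a = c) (hac : Commute a c) (hbc : Commute b c) :
    mexp a * mexp b = mexp (a + b) * mexp ((1 / 2 : ℝ) • c) := by
  have hcu : SU c := hc ▸ (ha.mul hb).sub (hb.mul ha)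
  have key : ∀ t : ℝ, DD (fun t : ℝ => mexp (t • (-(a + b))) * (mexp (t • a) * (mexp (t • b) *
      mexp ((-(t ^ 2 / 2)) • c)))) 0 t := by
    intro t
    have h1 : DD (fun t : ℝ => mexp ((-(t ^ 2 / 2)) • c))
        ((-t) • (c * mexp ((-(t ^ 2 / 2)) • c))) t := by
      intro i j
      have h2 := mexp_deriv hcu i j (-(t ^ 2 / 2))
      have h3 : HasDerivAt (fun t : ℝ => -(t ^ 2 / 2)) (-t) t := by
        have := ((hasDerivAt_pow 2 t).div_const 2).neg
        refine this.congr_deriv ?_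
        simp
      have h4 := HasDerivAt.comp t h2 h3
      refine h4.congr_deriv ?_
      rw [Matrix.smul_apply, smul_eq_mul]
      ring
    have h2 := (DD.exp (ha.add hb).neg t).mul ((DD.exp ha t).mul ((DD.exp hb t).mul h1))
    refine h2.congr ?_
    have e1 : (-(a + b)) * mexp (t • (-(a + b))) = mexp (t • (-(a + b))) * (-(a + b)) :=
      (commute_mexp ((Commute.refl (-(a + b))).smul_right t))
    have e2 := conj_aux ha hc hac t
    have e3 : mexp (t • b) * c = c * mexp (t • b) :=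
      ((commute_mexp (hbc.symm.smul_right t))).eq.symm
    have e4 : mexp (t • a) * c = c * mexp (t • a) :=
      ((commute_mexp (hac.symm.smul_right t))).eq.symm
    rw [e1]
    set A := mexp (t • a)
    set B := mexp (t • b)
    set C := mexp ((-(t ^ 2 / 2)) • c)
    set E := mexp (t • (-(a + b)))
    have e5 : A * (b * B * C) = (b + t • c) * (A * (B * C)) := by
      rw [Matrix.mul_assoc b B C, ← Matrix.mul_assoc A b, e2, Matrix.mul_assoc]
    have e6 : A * (B * ((-t) • (c * C))) = (-t) • (c * (A * (B * C))) := by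
      rw [Matrix.mul_smul, Matrix.mul_smul, ← Matrix.mul_assoc B c, e3, Matrix.mul_assoc c B C,
        ← Matrix.mul_assoc A c, e4, Matrix.mul_assoc c A]
    rw [Matrix.mul_add A, e5, e6]
    rw [show E * -(a + b) * (A * (B * C)) = E * (-(a + b) * (A * (B * C))) from
      Matrix.mul_assoc _ _ _, ← Matrix.mul_add]
    have e7 : -(a + b) * (A * (B * C)) + (a * A * (B * C) + ((b + t • c) * (A * (B * C)) +
        (-t) • (c * (A * (B * C))))) = 0 := by
      rw [Matrix.mul_assoc a A]
      simp only [Matrix.add_mul, Matrix.neg_mul, Matrix.smul_mul, neg_smul]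
      abel
    rw [e7, Matrix.mul_zero]
  have h3 := DD.eq key 1
  simp only [zero_smul, one_smul, mexp_zero, Matrix.mul_one] at h3
  have h0 : (0 : ℝ) ^ 2 / 2 = 0 := by norm_num
  rw [h0, neg_zero, zero_smul, mexp_zero, Matrix.mul_one, Matrix.mul_one, Matrix.mul_one] at h3
  have h4 : mexp (a + b) * mexp (-(a + b)) = 1 := mexp_mul_neg (ha.add hb)
  have h5 : mexp ((-(1 ^ 2 / 2 : ℝ)) • c) * mexp ((1 / 2 : ℝ) • c) = 1 := by
    have : ((-(1 ^ 2 / 2 : ℝ)) • c) = -((1 / 2 : ℝ) • c) := by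
      rw [← neg_smul]; norm_num
    rw [this]
    exact mexp_neg_mul (hcu.smul _)
  calc mexp a * mexp b = mexp (a + b) * (mexp (-(a + b)) * (mexp a * (mexp b *
        mexp ((-(1 ^ 2 / 2 : ℝ)) • c)))) * mexp ((1 / 2 : ℝ) • c) := by
        rw [← Matrix.mul_assoc (mexp (a + b)), h4, Matrix.one_mul, Matrix.mul_assoc,
          Matrix.mul_assoc, h5, Matrix.mul_one]
    _ = mexp (a + b) * mexp ((1 / 2 : ℝ) • c) := by rw [h3, Matrix.mul_one]

/-- BC2 for units -/
theorem bc2_ue {m : ℕ} {a b c : Matrix (Fin m) (Fin m) ℝ} (ha : SU a) (hb : SU b)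
    (hc : a * b - b * a = c) (hac : Commute a c) (hbc : Commute b c) :
    ue a * ue b = ue (a + b) * ue ((1 / 2 : ℝ) • c) := by
  have hcu : SU c := hc ▸ (ha.mul hb).sub (hb.mul ha)
  apply Units.ext
  rw [Units.val_mul, Units.val_mul, ue_val ha, ue_val hb, ue_val (ha.add hb),
    ue_val (hcu.smul _), bc2 ha hb hc hac hbc]

end Pool.Agent.QSB.H18
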