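import Pool.Agent.QSB.StmtsC
import Pool.Agent.QSB.StmtsR

set_option autoImplicit false

/-! # QSB: from the structure `MB` to the level of the data -/

namespace Pool.Agent.QSB.H18

open Matrix Finset Pool.Agent.QSX Pool.Agent.QSN

theorem mb_rtv {X : Dat} (hX : MB X) (l : hX.ι) : RtV X (hX.rt l) (hX.e l) :=
  ⟨⟨hX.e_mem l, hX.wt l⟩, hX.lin.ne_zero l⟩

theorem mb_spn {X : Dat} (hX : MB X) : Spn X := by
  intro x hx
  rw [← hX.span_e] at hx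
  refine Submodule.span_mono ?_ hx
  rintro _ ⟨l, rfl⟩
  exact ⟨hX.rt l, mb_rtv hX l⟩

theorem mb_rt (hW : WtxStmt) {X : Dat} (hX : MB X) {ρ : X.b →ₗ[ℝ] ℝ} (h : IsRt X ρ) :
    ∃ l, hX.rt l = ρ := by
  obtain ⟨x, ⟨hx, hw⟩, h0⟩ := h
  have h1 := hW X hX ρ x hx hw
  by_contra h2
  have h3 : {t | hX.rt t = ρ} = ∅ := by
    ext t
    simp only [Set.mem_setOf_eq, Set.mem_empty_iff_false, iff_false]
    exact fun h => h2 ⟨t, h⟩
  rw [h3, Set.image_empty, Submodule.span_empty, Submodule.mem_bot] at h1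
  exact h0 h1

theorem mb_ray (hW : WtxStmt) {X : Dat} (hX : MB X) : Ray X := by
  intro ρ c h1 h2
  obtain ⟨l, rfl⟩ := mb_rt hW hX h1
  obtain ⟨l', hl'⟩ := mb_rt hW hX h2
  rcases hX.ray l' l c hl' with h | h | h
  · exact Or.inr (Or.inr h)
  · exact Or.inl h
  · exact Or.inr (Or.inl h)

theorem wkp {X Y : Dat} {T : X.n →ₗ[ℝ] Matrix (Fin Y.m) (Fin Y.m) ℝ}
    {P : X.b →ₗ[ℝ] (Fin Y.m → ℝ)} (h : WkT X Y T P) : WkP X Y :=
  ⟨T, P, h.1, h.2.1, h.2.2.1, h.2.2.2.1, h.2.2.2.2.1,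
    fun ρ σ hn x y hx hy => h.2.2.2.2.2 ρ σ hn.1 x y hx.2 hy.2⟩

end Pool.Agent.QSB.H18
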