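import Pool.Agent.Helper18_QSB.WkVP

/-!
# Weak embeddings in a datum with a small nilpotent part are algebraic
-/

set_option autoImplicit false

namespace Pool.Agent.QSB.H18

open Matrix Finset Pool.Agent.QSX Pool.Agent.QSX.Asm Pool.Agent.QSB.All Pool.Agent.QSB.Out
open Pool.Agent.QSB.H20

/-- a simple root with a neighbour has a root with a negative product -/
theorem neg_nb {X : Dat} (hS : Nonempty (Sym X)) (hR : Nonempty (RBas X)) {α γ : X.b →ₗ[ℝ] ℝ}
    (hα : Smp X α) (hγ : IsRt X γ) (h1 : ∀ c : ℝ, γ ≠ c • α) (h2 : ip X α γ ≠ 0) :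
    ∃ γ', IsRt X γ' ∧ NPr γ' α ∧ ip X γ' α < 0 := by
  by_contra hcon
  push Not at hcon
  have hray := s_rys X hS
  have hA : ∀ β, Smp X β → β = α ∨ (Smp X β ∧ β ≠ α) := fun β hβ => by
    by_cases h : β = α
    · exact Or.inl h
    · exact Or.inr ⟨hβ, h⟩
  have hnp : ∀ β, Smp X β → β ≠ α → NPr β α := by
    intro β hβ hne
    have aux : ∀ (c : ℝ) (μ ν : X.b →ₗ[ℝ] ℝ), Smp X μ → Smp X ν → μ = c • ν → μ = ν := by
      intro c μ ν hμ hν h
      rcases hray ν c hν.1 (h ▸ hμ.1) with h3 | h3 | h3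
      · rw [h, h3, one_smul]
      · exfalso
        apply hμ.2 ν ν hν.1 hν.1
        rw [h, h3, two_smul]
      · exfalso
        apply hν.2 μ μ hμ.1 hμ.1
        rw [h, h3, ← add_smul]
        norm_num
    exact ⟨fun c hc => hne (aux c β α hβ hα hc), fun c hc => hne (aux c α β hα hβ hc).symm⟩
  have horth : ∀ a ∈ ({α} : Set (X.b →ₗ[ℝ] ℝ)), ∀ β ∈ {β | Smp X β ∧ β ≠ α}, ip X a β = 0 := by
    rintro a ha β ⟨hβ, hne⟩
    rw [Set.mem_singleton_iff.1 ha]
    have h3 := hcon β hβ.1 (hnp β hβ hne)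
    have h4 := s_spr X hS α β hα hβ (Ne.symm hne)
    rw [ip_comm] at h3
    exact le_antisymm h4 h3
  rcases s_sup X hS hR {α} {β | Smp X β ∧ β ≠ α} hA
      (fun a ha => by rw [Set.mem_singleton_iff.1 ha]; exact hα) (fun β hβ => hβ.1) horth γ hγ with
    ⟨L, hL, hs⟩ | ⟨L, hL, hs⟩
  · apply h1 (L.length : ℝ)
    rw [← hs]
    clear hs
    induction L with
    | nil => simp
    | cons a L ih =>
      rw [List.sum_cons, ih fun b hb => hL b (List.mem_cons_of_mem _ hb),
        Set.mem_singleton_iff.1 (hL a List.mem_cons_self), List.length_cons, Nat.cast_add,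
        Nat.cast_one, add_smul, one_smul, add_comm]
  · apply h2
    rw [← hs]
    clear hs
    induction L with
    | nil =>
      rw [List.sum_nil]
      have := ip_smul_right (X := X) 0 α 0
      rwa [zero_smul, zero_mul] at this
    | cons a L ih =>
      rw [List.sum_cons, ip_add_right, ih fun b hb => hL b (List.mem_cons_of_mem _ hb),
        horth α rfl a (hL a List.mem_cons_self), add_zero]

/-- **CRK.**  A weak embedding of a source in a datum with a nilpotent part which is not larger is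
algebraic. -/
theorem crk {X Y : Dat} (hX : Src X) (h : WkP X Y)
    (hd : Module.finrank ℝ Y.n ≤ Module.finrank ℝ X.n) : AlgEmb X Y := by
  obtain ⟨⟨S⟩, R, hNR⟩ := hX
  have hS : Nonempty (Sym X) := ⟨S⟩
  have hRR : Nonempty (RBas X) := ⟨R⟩
  obtain ⟨T, P, hTn, hPb, hTi, hPi, hst, hbr⟩ := h
  have hray := s_rys X hS
  have hspn : Spn X := by
    intro x hx
    rw [← R.span_e] at hx
    refine Submodule.span_mono ?_ hx
    rintro _ ⟨l, rfl⟩
    exact ⟨R.rt l, ⟨by rw [← R.span_e]; exact Submodule.subset_span ⟨l, rfl⟩, R.wt l⟩,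
      R.lin.ne_zero l⟩
  have hsur : ∀ d ∈ Y.n, ∃ z : X.n, T z = d := by
    intro d hdn
    have hi : Function.Injective (T.codRestrict Y.n hTn) := fun a b hab =>
      hTi (congrArg Subtype.val hab)
    have he : Module.finrank ℝ X.n = Module.finrank ℝ Y.n :=
      le_antisymm (LinearMap.finrank_le_finrank_of_injective hi) hd
    obtain ⟨z, hz⟩ := (LinearMap.injective_iff_surjective_of_finrank_eq_finrank he).1 hi ⟨d, hdn⟩
    exact ⟨z, congrArg Subtype.val hz⟩
  have hD' : ∀ (ρ : X.b →ₗ[ℝ] ℝ) (c : ℝ) (x y : X.n), RtV X ρ x.1 → RtV X (c • ρ) y.1 →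
      T (br X x y) = T x * T y - T y * T x := by
    intro ρ c x y hx hy
    have h0 : ρ ≠ 0 := r_bwt.2 X hray ρ ⟨x, hx⟩
    have hcc := hray ρ c ⟨x, hx⟩ ⟨y, hy⟩
    have hcpos : 0 < c := by
      rcases hcc with h | h | h <;> rw [h] <;> norm_num
    by_cases hs : ∃ α, Smp X α ∧ ∃ r : ℝ, ρ = r • α
    swap
    · exact r_jcb X Y.m T hbr ρ (gnd_of s_rys s_wtr s_gns hS R hs) c hcpos x y hx hy.1
    obtain ⟨α, hα, r, hr⟩ := hs
    have hα0 : α ≠ 0 := r_bwt.2 X hray α hα.1
    by_contra hne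
    obtain ⟨z, hz⟩ := hsur (T x * T y - T y * T x - T (br X x y))
      (Y.n.sub_mem (Y.lie _ (hTn x) _ (hTn y)) (hTn _))
    have hz0 : z ≠ 0 := by
      rintro rfl
      rw [map_zero] at hz
      exact hne (sub_eq_zero.1 hz.symm).symm
    -- the weight of `z`
    have act : ∀ (a : X.b) (τ : ℝ) (w : X.n),
        diagonal (a : Fin X.m → ℝ) * (w : Matrix (Fin X.m) (Fin X.m) ℝ) -
          (w : Matrix (Fin X.m) (Fin X.m) ℝ) * diagonal (a : Fin X.m → ℝ) =
          τ • (w : Matrix (Fin X.m) (Fin X.m) ℝ) →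
        diagonal (P a) * T w - T w * diagonal (P a) = τ • T w := by
      intro a τ w hw
      rw [← hst a w, ← map_smul]
      exact congrArg T (Subtype.ext hw)
    have wxy := (r_bwt.1 X ρ (c • ρ) x y hx.1 hy.1).2
    have hwz : WtV X ((1 + c) • ρ) z := by
      refine ⟨z.2, fun a => ?_⟩
      have e1 := act a _ x (hx.1.2 a)
      have e2 := act a _ y (hy.1.2 a)
      have e3 := act a _ (br X x y) (wxy a)
      have e4 : diagonal (P a) * T z - T z * diagonal (P a) = (((1 + c) • ρ) a) • T z := by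
        rw [hz]
        have e5 : diagonal (P a) * (T x * T y - T y * T x - T (br X x y)) -
            (T x * T y - T y * T x - T (br X x y)) * diagonal (P a) =
            ((diagonal (P a) * T x - T x * diagonal (P a)) * T y -
              T y * (diagonal (P a) * T x - T x * diagonal (P a))) +
            (T x * (diagonal (P a) * T y - T y * diagonal (P a)) -
              (diagonal (P a) * T y - T y * diagonal (P a)) * T x) -
            (diagonal (P a) * T (br X x y) - T (br X x y) * diagonal (P a)) := by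
          noncomm_ring
        rw [e5, e1, e2, e3]
        have e6 : (ρ + c • ρ) a = ρ a + (c • ρ) a := rfl
        have e7 : ((1 + c) • ρ) a = ρ a + (c • ρ) a := by
          rw [LinearMap.smul_apply, LinearMap.smul_apply, smul_eq_mul, smul_eq_mul]
          ring
        rw [e6, e7]
        simp only [Matrix.smul_mul, Matrix.mul_smul, smul_sub, add_smul]
        abel
      rw [← hst a z, ← map_smul] at e4
      exact congrArg Subtype.val (hTi e4)
    have hrz : RtV X ((1 + c) • ρ) z := ⟨hwz, fun h => hz0 (Subtype.ext h)⟩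
    have h1c : (1 + c) ≠ 0 := by positivity
    -- `z` commutes with the root vectors of the other directions
    have hcm : ∀ γ, NPr γ ρ → ∀ u : X.n, WtV X γ u →
        (z : Matrix (Fin X.m) (Fin X.m) ℝ) * u - u * z = 0 := by
      intro γ hγ u hu
      have e1 := r_jcc X Y.m T hbr ρ γ hγ c hcpos x y u hx.1 hy.1 hu
      have e2 : T z * T u - T u * T z = 0 := by
        rw [hz]
        exact e1
      have hn : NPr ((1 + c) • ρ) γ := by
        refine ⟨fun d hd => ?_, fun d hd => hγ.1 _ (by rw [hd, smul_smul])⟩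
        apply hγ.2 ((1 + c)⁻¹ * d)
        rw [mul_smul, ← hd, smul_smul, inv_mul_cancel₀ h1c, one_smul]
      have e3 := hbr _ γ hn z u hwz hu
      rw [e2] at e3
      have e4 := (injective_iff_map_eq_zero T).1 hTi _ e3
      exact congrArg Subtype.val e4
    -- `ρ = α`, `c = 1`
    have hhalf : ∀ s : ℝ, IsRt X (s • α) → s = 1 ∨ s = 2 := by
      intro s hs
      rcases hray α s hα.1 hs with h | h | h
      · exact Or.inl h
      · exact Or.inr h
      · exfalso
        apply hα.2 (s • α) (s • α) hs hs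
        rw [h, ← add_smul]
        norm_num
    have k1 : r = 1 ∨ r = 2 := hhalf r (by rw [← hr]; exact ⟨x, hx⟩)
    have k2 : c * r = 1 ∨ c * r = 2 := hhalf (c * r) (by rw [mul_smul, ← hr]; exact ⟨y, hy⟩)
    have k3 : (1 + c) * r = 1 ∨ (1 + c) * r = 2 :=
      hhalf ((1 + c) * r) (by rw [mul_smul, ← hr]; exact ⟨z, hrz⟩)
    have hr1 : r = 1 := by
      rcases k1 with h | h
      · exact h
      · rcases k2 with h' | h' <;> rcases k3 with h'' | h'' <;> nlinarith
    have hc1 : c = 1 := by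
      rw [hr1, mul_one] at k2 k3
      rcases k2 with h | h
      · exact h
      · rcases k3 with h' | h' <;> linarith
    have hρ : ρ = α := by rw [hr, hr1, one_smul]
    subst hρ
    obtain ⟨l, hl⟩ := (s_wtr X R ρ).2.1 hα.1
    rcases hNR l with ⟨l', h1, h2⟩ | h1
    · rw [hl] at h1 h2
      obtain ⟨γ, ⟨u, hu⟩, hγn, hγi⟩ := neg_nb hS hRR hα
        ((s_wtr X R (R.rt l')).2.2 ⟨l', rfl⟩) h1 h2
      have gz := ((s_gwb X S).1 _ _ hrz).1
      have gu := ((s_gwb X S).1 _ _ hu).1
      have hne' : (1 + c) • ρ ≠ 0 := smul_ne_zero h1c h0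
      refine (s_int X S ((1 + c) • ρ) γ z u gz hne' gu).2.1 ?_ (hcm γ hγn ⟨u, hu.1.1⟩ hu.1)
      rw [ip_smul_right]
      exact mul_neg_of_pos_of_neg (by linarith) hγi
    · obtain ⟨l'', hl''⟩ := (s_wtr X R ((1 + c) • ρ)).2.1 ⟨z, hrz⟩
      have h3 := h1 l'' (by
        rw [hl, hl'', ip_smul_right]
        exact mul_ne_zero h1c (ip_self_pos h0).ne')
      rw [h3, hl, hc1] at hl''
      have h4 : (1 : ℝ) • ρ = 0 := by
        have h5 : (1 + 1 : ℝ) • ρ - ρ = 0 := sub_eq_zero.2 hl''.symm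
        rwa [add_smul, one_smul, add_sub_cancel_right, ← one_smul ℝ ρ] at h5
      rw [one_smul] at h4
      exact h0 h4
  refine ⟨T, P, hTn, hPb, hTi, hPi, ?_, hst⟩
  have key : ∀ (ρ σ : X.b →ₗ[ℝ] ℝ) (x y : X.n), RtV X ρ x.1 → RtV X σ y.1 →
      T (br X x y) = T x * T y - T y * T x := by
    intro ρ σ x y hx hy
    by_cases hn : NPr ρ σ
    · exact hbr ρ σ hn x y hx.1 hy.1
    · unfold NPr at hn
      rw [not_and_or] at hn
      push Not at hn
      rcases hn with ⟨c, hc⟩ | ⟨c, hc⟩
      · -- `ρ = c • σ`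
        rw [hc] at hx
        have h1 := hD' σ c y x hy hx
        have h2 : T (br X y x) = T y * T x - T x * T y := h1
        rw [br_swap, map_neg] at h2
        rw [← neg_neg (T (br X x y)), h2, neg_sub]
      · rw [hc] at hy
        exact hD' ρ c x y hx hy
  -- left induction
  have key2 : ∀ (σ : X.b →ₗ[ℝ] ℝ) (x y : X.n), RtV X σ y.1 →
      T (br X x y) = T x * T y - T y * T x := by
    intro σ x y hy
    refine Submodule.span_induction
      (p := fun x _ => T (br X x y) = T x * T y - T y * T x) ?_ ?_ ?_ ?_ (span_rs X hspn x)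
    · rintro z ⟨ρ, hz⟩
      exact key ρ σ z y hz hy
    · rw [br_zero_left, map_zero, Matrix.zero_mul, Matrix.mul_zero, sub_zero]
    · intro a b _ _ h1 h2
      rw [br_add_left, map_add, map_add, h1, h2]
      noncomm_ring
    · intro c a _ h1
      rw [br_smul_left, map_smul, map_smul, h1, Matrix.smul_mul, Matrix.mul_smul, smul_sub]
  intro x y
  change T (br X x y) = T x * T y - T y * T x
  have key3 : T (br X y x) = T y * T x - T x * T y := by
    refine Submodule.span_induction
      (p := fun y _ => T (br X y x) = T y * T x - T x * T y) ?_ ?_ ?_ ?_ (span_rs X hspn y)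
    · rintro z ⟨ρ, hz⟩
      have h2 := key2 ρ x z hz
      rw [br_swap, map_neg, h2, neg_sub]
    · rw [br_zero_left, map_zero, Matrix.zero_mul, Matrix.mul_zero, sub_zero]
    · intro a b _ _ h1 h2
      rw [br_add_left, map_add, map_add, h1, h2]
      noncomm_ring
    · intro c a _ h1
      rw [br_smul_left, map_smul, map_smul, h1, Matrix.smul_mul, Matrix.mul_smul, smul_sub]
  rw [br_swap, map_neg] at key3
  rw [← neg_neg (T (br X x y)), key3, neg_sub]

/-- **Equal corank.** -/
theorem crk_pub (X Y : Dat) (hX : IsSrc X)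
    (hd : Module.finrank ℝ Y.n ≤ Module.finrank ℝ X.n) :
    (QIF X Y ↔ Emb X Y) ∧ (QI X Y ↔ Emb X Y) := by
  have hs := (isSrc_iff X).1 hX
  rw [emb_iff]
  have key : QIF X Y → AlgEmb X Y := fun h => crk hs (Out.weak X Y hs h) hd
  refine ⟨⟨key, fun h => ?_⟩, ⟨fun h => key ?_, fun h => (a_emb X Y h).1⟩⟩
  · obtain ⟨f, hf⟩ := (a_emb X Y h).2 ℝ
    exact ⟨ℝ, inferInstance, inferInstance, f, hf⟩
  · obtain ⟨f, hf⟩ := h
    exact ⟨ℝ, inferInstance, inferInstance, _, Pool.Agent.QSX.H10.qie_pair a_len hf ℝ⟩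

end Pool.Agent.QSB.H18
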