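import Pool.Agent.QSB.StmtsG
import Pool.Agent.QSB.StmtsB2
import Pool.Agent.Helper18_QSB.Bridge
import Pool.Agent.Helper10_QSX.FIN

set_option autoImplicit false

/-! # Rows WKX FNB of squad QSB -/

namespace Pool.Agent.QSB.H18

open Matrix Finset Pool.Agent.QSX Pool.Agent.QSN

theorem wkx (hV : VgqStmt) (hK : WkmStmt) : WkxStmt := by
  rintro X Y ⟨hX⟩ ⟨E, _, _, f, hf⟩
  obtain ⟨S, P, C, h1, h2, h3⟩ := hV X Y hX E f hf
  obtain ⟨T, P', h4⟩ := hK X Y hX S P h1 C h2 h3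
  exact wkp h4

theorem fnb (hT : WtxStmt) (hW : WkxStmt) (hA : AlbStmt) (hE : EmbStmt) (hL : LenStmt) :
    FnbStmt := by
  rintro X Y ⟨hX⟩ hR hS hr
  have key : QE X Y → AlgEmb X Y := fun h =>
    hA X Y (mb_spn hX) (mb_ray hT hX) hR hS hr (hW X Y ⟨hX⟩ h)
  refine ⟨⟨key, fun h => ?_⟩, ⟨fun h => key ?_, fun h => (hE X Y h).1⟩⟩
  · obtain ⟨f, hf⟩ := (hE X Y h).2 ℝ
    exact ⟨ℝ, inferInstance, inferInstance, f, hf⟩
  · obtain ⟨f, hf⟩ := h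
    exact ⟨ℝ, inferInstance, inferInstance, _, Pool.Agent.QSX.H10.qie_pair hL hf ℝ⟩

end Pool.Agent.QSB.H18
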