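import Pool.Agent.QSB.StmtsG

set_option autoImplicit false

/-! # Row MSB of squad QSB: `MS` implies `MB` -/

namespace Pool.Agent.QSB.H18

open Matrix Finset Pool.Agent.QSX Pool.Agent.QSN

theorem ms_eq {X : Dat} (hX : MS X) {l l' : hX.ι} (h : ∃ c : ℝ, hX.rt l = c • hX.rt l') :
    hX.rt l = hX.rt l' := by
  by_contra hne
  obtain ⟨c, hc⟩ := h
  exact hX.nonprop l l' hne c hc

theorem msb (hC : Pool.Agent.QSN.CsrStmt) : MsbStmt := by
  rintro X ⟨hX⟩
  have hne : ∀ {l l' : hX.ι}, (∀ c : ℝ, hX.rt l ≠ c • hX.rt l') → hX.rt l ≠ hX.rt l' :=
    fun h e => h 1 (by rw [one_smul]; exact e)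
  exact ⟨{ ι := hX.ι
           fin := hX.fin
           dec := hX.dec
           e := hX.e
           span_e := hX.span_e
           lin := hX.lin
           rt := hX.rt
           wt := hX.wt
           pos := hX.pos
           sep := hX.sep
           ray := by
             intro l l' c h
             right; left
             have h1 := ms_eq hX ⟨c, h⟩
             obtain ⟨a, ha⟩ := hX.pos
             have h2 := congrArg (fun f : X.b →ₗ[ℝ] ℝ => f a) (h1.symm.trans h)
             simp only [LinearMap.smul_apply, smul_eq_mul] at h2
             have h3 := (ha l').ne'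
             have h4 : (c - 1) * hX.rt l' a = 0 := by linarith
             rcases mul_eq_zero.1 h4 with h5 | h5
             · linarith
             · exact absurd h5 h3
           L := hX.L
           L_rt := hX.L_rt
           L_nodup := hX.L_nodup
           com := fun l l' h => hX.com l l' (hne h)
           self := by
             intro l l' h
             refine ⟨0, fun t ht => absurd rfl ht, ?_⟩
             have h1 := hC X hX l (hX.e l) (Submodule.subset_span ⟨l, rfl, rfl⟩) (hX.e l')
               (Submodule.subset_span ⟨l', h.symm, rfl⟩)
             rw [h1, sub_self]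
             symm
             refine Finset.sum_eq_zero fun t _ => ?_
             rw [Pi.zero_apply, Rat.cast_zero, zero_smul]
           gen := by
             intro l l' h t ht t' h'
             obtain ⟨W, h1, h2⟩ := hX.gen l l' (hne h) t ht t' (ms_eq hX h')
             exact ⟨W, fun w hw => ⟨hX.nonprop _ _ (h1 w hw).1, (h1 w hw).2⟩, h2⟩
           J := hX.J
           comp := hX.comp
           top := hX.top
           comp_top := hX.comp_top
           comp_rt := fun l l' c h => hX.comp_rt l l' (ms_eq hX ⟨c, h⟩)
           L_comp := hX.L_comp
           climb := fun l hl x hx h => hX.climb l hl x hx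
             (fun k hk => h k (hX.nonprop k l hk))
           rank1 := hX.rank1
           scal := hX.scal }⟩

end Pool.Agent.QSB.H18
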