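import Pool.Agent.Helper45_QSB.ALL
import Pool.Agent.Helper18_QSB.MSB
import Pool.Agent.Helper4_QSN.WTX
import Pool.Agent.Helper27_QSN.CSR
import Pool.Agent.Helper62_QSN.CBM
import Pool.Agent.Helper15_QSN.CCM
import Pool.Agent.Helper17_QSN.CKM
import Pool.Agent.Helper43_QSN.CDM
import Pool.Agent.Helper23_QSN.CVM
import Pool.Agent.Helper10_QSN.MSD
import Pool.Agent.Helper54_QSN.SLX
import Pool.Agent.Helper15_QSN.SCT
import Pool.Agent.Helper10_QSN.SWD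
import Pool.Agent.Helper85_QSN.SAC
import Pool.Agent.Helper50_QSN.STW
import Pool.Agent.Helper46_QSN.SON
import Pool.Agent.Helper65_QSN.SLB
import Pool.Agent.Helper80_QSN.SLG
import Pool.Agent.Helper95_QSN.SLI
import Pool.Agent.Helper67_QSN.SLR
import Pool.Agent.Helper98_QSN.SLP
import Pool.Agent.Helper24_QSN.SLQ
import Pool.Agent.Helper89_QSN.SLZ
import Pool.Agent.Helper12_QSN.SLS
import Pool.Agent.Helper36_QSN.SLF

set_option autoImplicit false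

/-! # The classification `SL_n (D) → SL_m (D')` without hypotheses -/

namespace Pool.Agent.QSB.H18

open Matrix Finset Pool.Agent.QSX Pool.Agent.QSX.Asm

theorem n_wtx : Pool.Agent.QSN.WtxStmt := Pool.Agent.QSN.H4.wtx
theorem n_csr : Pool.Agent.QSN.CsrStmt := Pool.Agent.QSN.H27.csr n_wtx
theorem n_cbm : Pool.Agent.QSN.CbmStmt := Pool.Agent.QSN.H62.cbm a_cha a_lgm
theorem n_ccm : Pool.Agent.QSN.CcmStmt := Pool.Agent.QSN.H15.ccm a_mcj a_bch a_lgm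
theorem n_ckm : Pool.Agent.QSN.CkmStmt := Pool.Agent.QSN.H17.ckm a_bch a_lgm
theorem n_cdm : Pool.Agent.QSN.CdmStmt := Pool.Agent.QSN.H43.cdm a_lgm n_cbm n_ccm n_ckm
theorem n_cvm : Pool.Agent.QSN.CvmStmt := Pool.Agent.QSN.H23.cvm All.n_cam n_ccm n_cdm
theorem b_msb : MsbStmt := msb n_csr

/-- for data of type `MS` a weak embedding in the sense of QSB is one in the sense of QSN -/
theorem wk_of {X Y : Dat} (hX : Pool.Agent.QSN.MS X)
    {T : X.n →ₗ[ℝ] Matrix (Fin Y.m) (Fin Y.m) ℝ} {P : X.b →ₗ[ℝ] (Fin Y.m → ℝ)}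
    (h : WkT X Y T P) : Pool.Agent.QSN.WkEmb X Y := by
  refine ⟨T, P, h.1, h.2.1, h.2.2.1, h.2.2.2.1, h.2.2.2.2.1, ?_⟩
  intro ρ ρ' hne x y hx hy
  have key : ∀ (σ : X.b →ₗ[ℝ] ℝ) (z : X.n), z ≠ 0 →
      (∀ c : X.b, diagonal (c : Fin X.m → ℝ) * (z : Matrix (Fin X.m) (Fin X.m) ℝ) -
        (z : Matrix (Fin X.m) (Fin X.m) ℝ) * diagonal (c : Fin X.m → ℝ) =
          σ c • (z : Matrix (Fin X.m) (Fin X.m) ℝ)) → ∃ l, hX.rt l = σ := by
    intro σ z hz hw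
    have h1 := n_wtx X hX σ z z.2 hw
    by_contra h2
    have h3 : {t | hX.rt t = σ} = ∅ := by
      ext t
      exact ⟨fun h => (h2 ⟨t, h⟩).elim, fun h => h.elim⟩
    rw [h3, Set.image_empty, Submodule.span_empty, Submodule.mem_bot] at h1
    exact hz (Subtype.ext h1)
  by_cases hx0 : x = 0
  · subst hx0
    have e : (⟨_, X.lie ((0 : X.n) : Matrix (Fin X.m) (Fin X.m) ℝ) (0 : X.n).2 y y.2⟩ : X.n) = 0 := by
      apply Subtype.ext
      simp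
    rw [e, map_zero, zero_mul, mul_zero, sub_zero]
  by_cases hy0 : y = 0
  · subst hy0
    have e : (⟨_, X.lie x x.2 ((0 : X.n) : Matrix (Fin X.m) (Fin X.m) ℝ) (0 : X.n).2⟩ : X.n) = 0 := by
      apply Subtype.ext
      simp
    rw [e, map_zero, zero_mul, mul_zero, sub_zero]
  obtain ⟨l, rfl⟩ := key ρ x hx0 hx
  obtain ⟨l', rfl⟩ := key ρ' y hy0 hy
  exact h.2.2.2.2.2 _ _ (hX.nonprop l l' hne) x y hx hy

theorem n_wkx : Pool.Agent.QSN.WkxStmt := by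
  rintro X Y ⟨hX⟩ ⟨E, _, _, f, hf⟩
  obtain ⟨hM⟩ := b_msb X ⟨hX⟩
  obtain ⟨T, P, h⟩ := All.all X Y hM E f hf
  exact wk_of hX h

theorem n_sls : Pool.Agent.QSN.SlsStmt := Pool.Agent.QSN.H12.sls
theorem n_stw : Pool.Agent.QSN.StwStmt :=
  Pool.Agent.QSN.H50.stw Pool.Agent.QSN.H15.sct Pool.Agent.QSN.H10.swd Pool.Agent.QSN.H85.sac
theorem n_son : Pool.Agent.QSN.SonStmt :=
  Pool.Agent.QSN.H46.son Pool.Agent.QSN.H15.sct Pool.Agent.QSN.H10.swd Pool.Agent.QSN.H85.sac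
theorem n_slb : Pool.Agent.QSN.SlbStmt := Pool.Agent.QSN.H65.slb n_stw n_son
theorem n_sli : Pool.Agent.QSN.SliStmt := Pool.Agent.QSN.H95.sli Pool.Agent.QSN.H80.slg a_acm
theorem n_slz : Pool.Agent.QSN.SlzStmt :=
  Pool.Agent.QSN.H89.slz Pool.Agent.QSN.H54.slx n_slb n_sli Pool.Agent.QSN.H67.slr
    Pool.Agent.QSN.H98.slp Pool.Agent.QSN.H24.slq

/-- **The classification.** -/
theorem n_slf : Pool.Agent.QSN.SlfStmt :=
  Pool.Agent.QSN.H36.slf n_wkx n_cvm Pool.Agent.QSN.H10.msd n_sls n_slz a_emb a_len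

end Pool.Agent.QSB.H18
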