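import Pool.Agent.QSB.StmtsA

set_option autoImplicit false

/-! # Row TAD of squad QSB: the steps in a root space are additive -/

namespace Pool.Agent.QSB.H18

open Matrix Finset Pool.Agent.QSX Pool.Agent.QSN

theorem ue_add_comm {R : Type} [CommRing R] [Algebra ℝ R] {m : ℕ} {x y : Matrix (Fin m) (Fin m) R}
    (hx : SU x) (hy : SU y) (h : x * y = y * x) : ue (x + y) = ue x * ue y := by
  apply Units.ext
  rw [Units.val_mul, ue_val (hx.add hy), ue_val hx, ue_val hy]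
  exact mexp_add hx hy h

theorem ue_zero'' {R : Type} [CommRing R] [Algebra ℝ R] {m : ℕ} :
    ue (0 : Matrix (Fin m) (Fin m) R) = 1 := by
  apply Units.ext
  rw [ue_val SU.zero, mexp_zero]; rfl

theorem mlog_comm {R : Type} [CommRing R] [Algebra ℝ R] {m : ℕ} {g h : Matrix (Fin m) (Fin m) R}
    (hc : Commute g h) : Commute (mlog g) h := by
  rw [mlog]
  refine Commute.sum_left _ _ _ fun k _ => ?_
  exact ((hc.sub_left (Commute.one_left h)).pow_left k).smul_left _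

theorem su_sum {R : Type} [CommRing R] {m : ℕ} {α : Type} (S : Finset α)
    (f : α → Matrix (Fin m) (Fin m) R) (h : ∀ a ∈ S, SU (f a)) : SU (∑ a ∈ S, f a) := by
  intro i j hij
  rw [Matrix.sum_apply]
  exact Finset.sum_eq_zero fun a ha => h a ha i j hij

theorem tad (hLgm : LgmStmt) (hNfl : NflStmt) (hRoo : RooStmt) (hCvl : CvlStmt) (hCsr : CsrStmt)
    (hIvm : IvmStmt) (hNsm : NsmStmt) (hGen : GenStmt) : TadStmt := by
  intro X Y hX F _ _ P A l l' hl t ht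
  have hI := hIvm X Y hX F P A
  have hG : A.rg.Gen := by
    intro l l' hl t ht t' ht' x
    have h1 := hGen X hX l l' (hX.cl_ne.1 hl) t ht t' (hX.cl_eq.1 ht') x
    have h2 : hX.K t' ≤ Subgroup.closure {g | ∃ (m : hX.ι) (y : ℚ),
        A.rg.cl m ≠ A.rg.cl t' ∧ g = A.rg.u m y} := by
      refine Subgroup.closure_mono ?_
      rintro g ⟨m, y, h, rfl⟩
      exact ⟨m, y, hX.cl_ne.2 h, rfl⟩
    exact h2 h1
  have hu : ∀ (l : hX.ι) (x : ℚ), ue ((x : ℝ) • hX.e l) ∈ hX.Gam :=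
    fun l x => Subgroup.subset_closure ⟨l, x, rfl⟩
  have hray : ∀ t' : hX.ι, hX.rt t' = hX.rt t.1 → hX.cl t' = hX.cl t.1 := by
    intro t' h
    rw [hX.cl_eq, hX.np_iff]
    exact ⟨1, by rw [one_smul]; exact h⟩
  have hV : ∀ t' : hX.ι, hX.rt t' = hX.rt t.1 → ∀ n ∈ hX.Gam, ∀ x : ℚ,
      A.rg.V t' n x = A.rg.V t' 1 x := fun t' ht' n hn x =>
    hNsm _ _ _ _ A.rg hI hG l l' (hX.cl_ne.2 hl) t ht t' (hray t' ht') n hn x
  have hUU : ∀ l, ∀ n ∈ hX.Gam, ∀ x : ℚ,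
      UU ((A.rg.V l n x : (Matrix (Fin Y.m) (Fin Y.m) F)ˣ) : Matrix (Fin Y.m) (Fin Y.m) F) := by
    intro l n hn x
    obtain ⟨y, hy, e⟩ := A.val n hn _ (hX.Gam.mul_mem hn (hu l x))
    have e' : A.rg.V l n x = ue y := e
    have hy' := (hNfl Y F).1 y hy
    rw [e', ue_val hy']
    exact ((hLgm F Y.m).1 y hy').1
  have hC : ∀ l, SU (A.C l) := fun l => (hCvl X Y hX F P A l).2.1
  have h1 : ∀ t' : hX.ι, hX.rt t' = hX.rt t.1 → ∀ n ∈ hX.Gam, ∀ x : ℚ,
      (A.χ n)⁻¹ * A.χ (n * ue ((x : ℝ) • hX.e t')) = ue ((x : ℝ) • A.C t') := by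
    intro t' ht' n hn x
    have hmul : ∀ x y : ℚ, A.rg.V t' 1 (x + y) = A.rg.V t' 1 x * A.rg.V t' 1 y := by
      intro x y
      have h2 := hV t' ht' (A.rg.u t' x) (hu t' x) y
      rw [← h2]
      show (A.χ 1)⁻¹ * A.χ (1 * A.rg.u t' (x + y)) =
        ((A.χ 1)⁻¹ * A.χ (1 * A.rg.u t' x)) *
          ((A.χ (A.rg.u t' x))⁻¹ * A.χ (A.rg.u t' x * A.rg.u t' y))
      rw [A.rg.add, one_mul, one_mul]
      group
    have h3 := hRoo F Y.m (fun x => A.rg.V t' 1 x) hmul (fun x => hUU t' 1 (one_mem _) x) x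
    have h4 := hV t' ht' n hn x
    have h5 : A.C t' = mlog ((A.rg.V t' 1 1 : (Matrix (Fin Y.m) (Fin Y.m) F)ˣ) :
        Matrix (Fin Y.m) (Fin Y.m) F) := by
      rw [(hCvl X Y hX F P A t').2.2.1, ue_val (hC t')]
      exact ((hLgm F Y.m).1 _ (hC t')).2.symm
    show A.rg.V t' n x = _
    rw [h4, h5]
    exact h3
  refine ⟨h1, ?_⟩
  intro h2rt
  have hcomm : ∀ t' t'' : hX.ι, hX.rt t' = hX.rt t.1 → hX.rt t'' = hX.rt t.1 →
      A.C t' * A.C t'' = A.C t'' * A.C t' := by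
    intro t' t'' ht' ht''
    have key : ∀ s s' : hX.ι, hX.rt s = hX.rt t.1 → hX.rt s' = hX.rt t.1 →
        (A.χ 1)⁻¹ * A.χ (ue (((1 : ℚ) : ℝ) • hX.e s) * ue (((1 : ℚ) : ℝ) • hX.e s')) =
          ue (A.C s) * ue (A.C s') := by
      intro s s' hs hs'
      have a1 := h1 s hs 1 (one_mem _) 1
      have a2 := h1 s' hs' (ue (((1 : ℚ) : ℝ) • hX.e s)) (hu s 1) 1
      rw [one_mul] at a1
      rw [show (A.χ 1)⁻¹ * A.χ (ue (((1 : ℚ) : ℝ) • hX.e s) * ue (((1 : ℚ) : ℝ) • hX.e s')) =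
        ((A.χ 1)⁻¹ * A.χ (ue (((1 : ℚ) : ℝ) • hX.e s))) *
        ((A.χ (ue (((1 : ℚ) : ℝ) • hX.e s)))⁻¹ *
          A.χ (ue (((1 : ℚ) : ℝ) • hX.e s) * ue (((1 : ℚ) : ℝ) • hX.e s'))) by group, a1, a2,
        Rat.cast_one, one_smul, one_smul]
    have hsw : ue (((1 : ℚ) : ℝ) • hX.e t') * ue (((1 : ℚ) : ℝ) • hX.e t'') =
        ue (((1 : ℚ) : ℝ) • hX.e t'') * ue (((1 : ℚ) : ℝ) • hX.e t') := by
      rw [Rat.cast_one, one_smul, one_smul]
      have e1 := hCsr X hX t.1 h2rt (hX.e t') (Submodule.subset_span ⟨t', ht', rfl⟩)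
        (hX.e t'') (Submodule.subset_span ⟨t'', ht'', rfl⟩)
      rw [← ue_add_comm (hX.su_e t') (hX.su_e t'') e1,
        ← ue_add_comm (hX.su_e t'') (hX.su_e t') e1.symm, add_comm]
    have k1 := key t' t'' ht' ht''
    have k2 := key t'' t' ht'' ht'
    rw [hsw] at k1
    rw [k1] at k2
    have k3 := congrArg (fun u : (Matrix (Fin Y.m) (Fin Y.m) F)ˣ => (u : Matrix (Fin Y.m) (Fin Y.m) F)) k2
    simp only [Units.val_mul] at k3
    rw [ue_val (hC t'), ue_val (hC t'')] at k3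
    have k4 : Commute (mexp (A.C t')) (mexp (A.C t'')) := k3
    have k5 := mlog_comm k4
    rw [((hLgm F Y.m).1 _ (hC t')).2] at k5
    have k6 := mlog_comm k5.symm
    rw [((hLgm F Y.m).1 _ (hC t'')).2] at k6
    exact k6.symm
  refine ⟨?_, hcomm⟩
  intro S x
  classical
  induction S using Finset.induction_on with
  | empty =>
    intro _ n _
    rw [Finset.sum_empty, Finset.sum_empty, ue_zero'', ue_zero'', mul_one, inv_mul_cancel]
  | insert a S ha ih =>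
    intro hS n hn
    have hS' : ∀ t' ∈ S, hX.rt t' = hX.rt t.1 := fun t' h => hS t' (Finset.mem_insert_of_mem h)
    have hra : hX.rt a = hX.rt t.1 := hS a (Finset.mem_insert_self _ _)
    have hspan : ∑ t' ∈ S, ((x t' : ℚ) : ℝ) • hX.e t' ∈
        Submodule.span ℝ (hX.e '' {s | hX.rt s = hX.rt t.1}) :=
      Submodule.sum_mem _ fun t' h => Submodule.smul_mem _ _
        (Submodule.subset_span ⟨t', hS' t' h, rfl⟩)
    have hae : ((x a : ℚ) : ℝ) • hX.e a ∈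
        Submodule.span ℝ (hX.e '' {s | hX.rt s = hX.rt t.1}) :=
      Submodule.smul_mem _ _ (Submodule.subset_span ⟨a, hra, rfl⟩)
    have hsu1 : SU (∑ t' ∈ S, ((x t' : ℚ) : ℝ) • hX.e t') :=
      su_sum _ _ fun t' _ => (hX.su_e t').smul _
    have hsu2 : SU (((x a : ℚ) : ℝ) • hX.e a) := (hX.su_e a).smul _
    have hsu3 : SU (∑ t' ∈ S, ((x t' : ℚ) : ℝ) • A.C t') :=
      su_sum _ _ fun t' _ => (hC t').smul _
    have hsu4 : SU (((x a : ℚ) : ℝ) • A.C a) := (hC a).smul _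
    have hc2 : (∑ t' ∈ S, ((x t' : ℚ) : ℝ) • A.C t') * (((x a : ℚ) : ℝ) • A.C a) =
        (((x a : ℚ) : ℝ) • A.C a) * (∑ t' ∈ S, ((x t' : ℚ) : ℝ) • A.C t') := by
      rw [Finset.sum_mul, Finset.mul_sum]
      refine Finset.sum_congr rfl fun t' h => ?_
      rw [smul_mul_smul_comm, smul_mul_smul_comm, hcomm t' a (hS' t' h) hra, mul_comm]
    have hmem : ∀ T : Finset hX.ι, (∀ t' ∈ T, hX.rt t' = hX.rt t.1) →
        ue (∑ t' ∈ T, ((x t' : ℚ) : ℝ) • hX.e t') ∈ hX.Gam := by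
      intro T
      induction T using Finset.induction_on with
      | empty => intro _; rw [Finset.sum_empty, ue_zero'']; exact one_mem _
      | insert b T hb ihT =>
        intro hT
        have hT' : ∀ t' ∈ T, hX.rt t' = hX.rt t.1 := fun t' h => hT t' (Finset.mem_insert_of_mem h)
        rw [Finset.sum_insert hb, ue_add_comm ((hX.su_e b).smul _)
          (su_sum _ _ fun t' _ => (hX.su_e t').smul _)
          (hCsr X hX t.1 h2rt _ (Submodule.smul_mem _ _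
            (Submodule.subset_span ⟨b, hT b (Finset.mem_insert_self _ _), rfl⟩)) _
            (Submodule.sum_mem _ fun t' h => Submodule.smul_mem _ _
              (Submodule.subset_span ⟨t', hT' t' h, rfl⟩)))]
        exact mul_mem (hu b _) (ihT hT')
    have b1 := ih hS' n hn
    have b2 := h1 a hra (n * ue (∑ t' ∈ S, ((x t' : ℚ) : ℝ) • hX.e t'))
      (mul_mem hn (hmem S hS')) (x a)
    rw [Finset.sum_insert ha, Finset.sum_insert ha, add_comm, add_comm (((x a : ℚ) : ℝ) • A.C a),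
      ue_add_comm hsu1 hsu2 (hCsr X hX t.1 h2rt _ hspan _ hae), ue_add_comm hsu3 hsu4 hc2, ← b1, ← b2]
    group

end Pool.Agent.QSB.H18
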