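import Pool.Agent.Helper19_QSB.Pub

/-!
# Weak embeddings: public definition (squad QSB, helper18)
-/

set_option autoImplicit false

namespace Pool.Agent.QSB

open Matrix Pool.Agent.QSX

/-- `w` is a simple root -/
def SRoot (X : Dat) (w : Fin X.m → ℝ) : Prop :=
  Root X w ∧ ∀ u v, Root X u → Root X v → u + v ≠ w

/-- A **weak embedding** of `X` in `Y`: linear maps `T`, `P`, injective on `n_X` and on `b_X`, which map
`n_X` in `n_Y` and `b_X` in `b_Y` and respect the actions of `b_X`, `b_Y` and the brackets of root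
vectors of the roots `u`, `v`, except if `u` and `v` are multiples of one simple root. -/
def WEmb (X Y : Dat) : Prop :=
  ∃ (T : Matrix (Fin X.m) (Fin X.m) ℝ →ₗ[ℝ] Matrix (Fin Y.m) (Fin Y.m) ℝ)
    (P : (Fin X.m → ℝ) →ₗ[ℝ] (Fin Y.m → ℝ)),
    (∀ x ∈ X.n, T x ∈ Y.n ∧ (T x = 0 → x = 0)) ∧ (∀ a ∈ X.b, P a ∈ Y.b ∧ (P a = 0 → a = 0)) ∧
    (∀ a ∈ X.b, ∀ x ∈ X.n, T (lieb (diagonal a) x) = lieb (diagonal (P a)) (T x)) ∧
    ∀ u v x y, RootV X u x → RootV X v y →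
      (¬ ∃ w, SRoot X w ∧ ∃ r s : ℝ, u = r • w ∧ v = s • w) → T (lieb x y) = lieb (T x) (T y)

end Pool.Agent.QSB
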