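import Pool.Agent.Helper18_QSB.WkV
import Pool.Agent.Helper19_QSB.PubP

/-!
# Weak embeddings in all ranks, public form
-/

set_option autoImplicit false

namespace Pool.Agent.QSB.H18

open Matrix Finset Pool.Agent.QSX Pool.Agent.QSX.Asm Pool.Agent.QSB.All Pool.Agent.QSB.Out

/-- a root which is not a multiple of a simple root is generated -/
theorem gnd_of (hRYS : RysStmt) (hWTR : WtrStmt) (hGNS : GnsStmt) {X : Dat}
    (hS : Nonempty (Sym X)) (R : RBas X) {ρ : X.b →ₗ[ℝ] ℝ}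
    (hs : ¬ ∃ α, Smp X α ∧ ∃ c : ℝ, ρ = c • α) : Gnd X ρ := by
  have hray := hRYS X hS
  have hrtv : ∀ w : R.ι, RtV X (R.rt w) (R.e w) := fun w =>
    ⟨⟨by rw [← R.span_e]; exact Submodule.subset_span ⟨w, rfl⟩, R.wt w⟩, R.lin.ne_zero w⟩
  intro x hx
  have hx1 := (hWTR X R ρ).1 x hx.1
  refine Submodule.span_le.2 ?_ hx1
  rintro _ ⟨t, ht, rfl⟩
  have ht' : R.rt t = ρ := ht
  have hg := hGNS X hS R t (fun α hα c hc => hs ⟨α, hα, c, by rw [← ht', hc]⟩)
  refine Submodule.span_le.2 ?_ hg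
  rintro _ ⟨w, w', hw, hww, rfl⟩
  apply Submodule.subset_span
  refine ⟨R.rt w, R.rt w', R.e w, R.e w', ⟨hw, fun c hc => ?_⟩, by rw [hww, ht'], hrtv w,
    hrtv w', rfl⟩
  by_cases h0 : c = 0
  · rw [h0, zero_smul] at hc
    have hr : IsRt X (R.rt w') := ⟨_, hrtv w'⟩
    have hr2 : IsRt X ((3 : ℝ) • R.rt w') := by
      rw [hc, smul_zero]
      rw [hc] at hr
      exact hr
    rcases hray _ 3 hr hr2 with h1 | h1 | h1 <;> norm_num at h1
  · apply hw c⁻¹
    rw [hc, smul_smul, inv_mul_cancel₀ h0, one_smul]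

theorem sroot_iff {X : Dat} (α : X.b →ₗ[ℝ] ℝ) : SRoot X (tv X α) ↔ Smp X α := by
  unfold SRoot Smp
  rw [root_iff]
  refine and_congr_right fun _ => ?_
  constructor
  · intro h σ τ hσ hτ hst
    apply h _ _ ((root_iff σ).1 hσ) ((root_iff τ).1 hτ)
    rw [← hst, map_add]
    rfl
  · intro h u v hu hv huv
    have mu := root_mem hu
    have mv := root_mem hv
    apply h (fn mu) (fn mv) ((root_fn mu).2 hu) ((root_fn mv).2 hv)
    refine tv_inj ?_
    rw [map_add]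
    show (tv X (fn mu) : Fin X.m → ℝ) + (tv X (fn mv) : Fin X.m → ℝ) = _
    rw [tv_fn', tv_fn', huv]

theorem wEmb_of {X Y : Dat} (hX : Src X) (h : WkP X Y) : WEmb X Y := by
  obtain ⟨hS, R, -⟩ := hX
  obtain ⟨T, P, h1, h2, h3, h4, h5, h6⟩ := h
  obtain ⟨T', hT⟩ := LinearMap.exists_extend T
  obtain ⟨P', hP⟩ := LinearMap.exists_extend P
  have eT : ∀ (x) (hx : x ∈ X.n), T' x = T ⟨x, hx⟩ := fun x hx => by rw [← hT]; rfl
  have eP : ∀ (x) (hx : x ∈ X.b), P' x = P ⟨x, hx⟩ := fun x hx => by rw [← hP]; rfl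
  refine ⟨T', P', ?_, ?_, ?_, ?_⟩
  · intro x hx
    rw [eT x hx]
    refine ⟨h1 _, fun h => ?_⟩
    exact congrArg Subtype.val ((injective_iff_map_eq_zero T).1 h3 _ h)
  · intro x hx
    rw [eP x hx]
    refine ⟨h2 _, fun h => ?_⟩
    exact congrArg Subtype.val ((injective_iff_map_eq_zero P).1 h4 _ h)
  · intro a ha x hx
    rw [eT x hx, eP a ha]
    have := h5 ⟨a, ha⟩ ⟨x, hx⟩
    rw [← eT _ (X.stab a ha x hx)] at this
    exact this
  · intro u v x y hx hy huv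
    have hu := hx.1
    have hv := hy.1
    have hx' := (rootV_fn hu x).2 hx
    have hy' := (rootV_fn hv y).2 hy
    have hray := s_rys X hS
    have hsm : ∀ (r : ℝ) (μ : X.b →ₗ[ℝ] ℝ),
        ((tv X (r • μ) : X.b) : Fin X.m → ℝ) = r • (tv X μ : Fin X.m → ℝ) := by
      intro r μ
      rw [map_smul]
      rfl
    -- the statement for the subtypes
    have main : T ⟨_, X.lie x hx.2.1 y hy.2.1⟩ =
        T ⟨x, hx.2.1⟩ * T ⟨y, hy.2.1⟩ - T ⟨y, hy.2.1⟩ * T ⟨x, hx.2.1⟩ := by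
      by_cases hn : NPr (fn hu) (fn hv)
      · exact h6 _ _ hn ⟨x, hx.2.1⟩ ⟨y, hy.2.1⟩ hx'.1 hy'.1
      · -- proportional roots
        have h0u : fn hu ≠ 0 := r_bwt.2 X hray _ ⟨x, hx'⟩
        have h0v : fn hv ≠ 0 := r_bwt.2 X hray _ ⟨y, hy'⟩
        have hc : ∃ c : ℝ, fn hv = c • fn hu := by
          by_contra hcon
          push Not at hcon
          apply hn
          refine ⟨fun c hc => ?_, hcon⟩
          have hc0 : c ≠ 0 := fun h => h0u (by rw [hc, h, zero_smul])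
          apply hcon c⁻¹
          rw [hc, smul_smul, inv_mul_cancel₀ hc0, one_smul]
        obtain ⟨c, hc⟩ := hc
        have hcpos : 0 < c := by
          rcases hray (fn hu) c ⟨x, hx'⟩ (by rw [← hc]; exact ⟨y, hy'⟩) with h | h | h <;>
            rw [h] <;> norm_num
        have hg : Gnd X (fn hu) := by
          refine gnd_of s_rys s_wtr s_gns hS R ?_
          rintro ⟨α, hα, r, hr⟩
          refine huv ⟨tv X α, (sroot_iff α).2 hα, r, c * r, ?_, ?_⟩
          · rw [← hsm, ← hr, tv_fn']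
          · rw [mul_smul, ← hsm, ← hr, ← hsm, ← hc, tv_fn']
        refine r_jcb X Y.m T h6 (fn hu) hg c hcpos ⟨x, hx.2.1⟩ ⟨y, hy.2.1⟩ hx' ?_
        rw [← hc]
        exact hy'.1
    rw [← eT, ← eT, ← eT] at main
    exact main

/-- Weak embeddings in all ranks. -/
theorem weak_pub (X Y : Dat) (hX : IsSrc X) (h : QIF X Y) : WEmb X Y :=
  wEmb_of ((isSrc_iff X).1 hX) (Out.weak X Y ((isSrc_iff X).1 hX) h)

end Pool.Agent.QSB.H18
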